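import Mathlib

/-! Monochromatic cherries in edge colourings of complete graphs (helper432). -/

set_option autoImplicit false

namespace Pool.Agent.H432R2.Cherry

open Finset

variable {V : Type} [Fintype V] [DecidableEq V] {r : ℕ}

/-- the number of vertices `w` other than `u`, `v` whose edges to `u` and `v` have the same colour -/
def mono (c : V → V → Fin r) (u v : V) : ℕ :=
  (univ.filter (fun w => w ≠ u ∧ w ≠ v ∧ c u w = c w v)).card

/-- indicator -/
def ai (c : V → V → Fin r) (u w w' : V) : ℕ :=
  if w ≠ u ∧ w' ≠ u ∧ c u w = c u w' then 1 else 0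

theorem sum_ai_ne (c : V → V → Fin r) (hs : ∀ u v, c u v = c v u) (w w' : V) :
    ∑ u, ai c u w w' = mono c w w' := by
  unfold ai mono
  rw [Finset.card_filter]
  apply Finset.sum_congr rfl
  intro u _
  have h1 : (w ≠ u ∧ w' ≠ u ∧ c u w = c u w') ↔ (u ≠ w ∧ u ≠ w' ∧ c w u = c u w') := by
    rw [hs u w]
    constructor
    · rintro ⟨a, b, d⟩; exact ⟨fun h => a h.symm, fun h => b h.symm, d⟩
    · rintro ⟨a, b, d⟩; exact ⟨fun h => a h.symm, fun h => b h.symm, d⟩
  by_cases h : (w ≠ u ∧ w' ≠ u ∧ c u w = c u w')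
  · rw [if_pos h, if_pos (h1.mp h)]
  · rw [if_neg h, if_neg (fun h2 => h (h1.mpr h2))]

theorem sum_ai_eq (c : V → V → Fin r) (w : V) :
    ∑ u, ai c u w w = Fintype.card V - 1 := by
  unfold ai
  rw [← Finset.card_filter]
  have : univ.filter (fun u => w ≠ u ∧ w ≠ u ∧ c u w = c u w) = univ.erase w := by
    ext u
    simp only [Finset.mem_filter, Finset.mem_univ, true_and, Finset.mem_erase, and_true, and_self]
    exact ⟨fun h h2 => h h2.symm, fun h h2 => h h2.symm⟩
  rw [this, Finset.card_erase_of_mem (Finset.mem_univ _), Finset.card_univ]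

/-- the main local inequality -/
theorem local_ineq (c : V → V → Fin r) (hs : ∀ u v, c u v = c v u)
    (ht : ∀ u v w, u ≠ v → v ≠ w → u ≠ w → ¬ (c u v = c v w ∧ c v w = c u w))
    (u v : V) (huv : u ≠ v) :
    (Fintype.card V - 2) ^ 2 ≤ (r ^ 2 - 1) * ∑ w, ∑ w', ai c u w w' * ai c v w w' := by
  classical
  let S : Finset V := univ.filter (fun w => w ≠ u ∧ w ≠ v)
  have hS : S.card = Fintype.card V - 2 := by
    have : S = (univ.erase u).erase v := by
      ext w
      simp only [S, Finset.mem_filter, Finset.mem_univ, true_and, Finset.mem_erase, and_true]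
      tauto
    rw [this, Finset.card_erase_of_mem, Finset.card_erase_of_mem (Finset.mem_univ _),
      Finset.card_univ]
    · omega
    · simp [huv.symm]
  let g : V → Fin r × Fin r := fun w => (c u w, c v w)
  let T : Finset (Fin r × Fin r) := univ.erase (c u v, c u v)
  have hT : T.card = r ^ 2 - 1 := by
    rw [Finset.card_erase_of_mem (Finset.mem_univ _), Finset.card_univ, Fintype.card_prod,
      Fintype.card_fin, sq]
  have hmap : ∀ w ∈ S, g w ∈ T := by
    intro w hw
    simp only [S, Finset.mem_filter, Finset.mem_univ, true_and] at hw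
    simp only [T, g, Finset.mem_erase, Finset.mem_univ, and_true, ne_eq, Prod.mk.injEq, not_and]
    intro h1 h2
    apply ht u v w huv hw.2.symm hw.1.symm
    exact ⟨h2.symm, h2.trans h1.symm⟩
  have h1 : S.card = ∑ p ∈ T, (S.filter (fun w => g w = p)).card :=
    Finset.card_eq_sum_card_fiberwise hmap
  have h2 : S.card ^ 2 ≤ T.card * ∑ p ∈ T, (S.filter (fun w => g w = p)).card ^ 2 := by
    rw [h1]
    exact sq_sum_le_card_mul_sum_sq
  have h3 : ∑ p ∈ T, (S.filter (fun w => g w = p)).card ^ 2
      ≤ ∑ w, ∑ w', ai c u w w' * ai c v w w' := by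
    calc ∑ p ∈ T, (S.filter (fun w => g w = p)).card ^ 2
        ≤ ∑ p, (S.filter (fun w => g w = p)).card ^ 2 :=
          Finset.sum_le_sum_of_subset (Finset.subset_univ _)
      _ = ∑ p : Fin r × Fin r, ∑ w, ∑ w',
            ((if w ∈ S ∧ g w = p then 1 else 0) * (if w' ∈ S ∧ g w' = p then 1 else 0)) := by
          apply Finset.sum_congr rfl
          intro p _
          rw [sq, ← Finset.sum_mul_sum]
          congr 1 <;>
          · rw [← Finset.card_filter]
            congr 1
            ext w
            simp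
      _ = ∑ w, ∑ w', ∑ p : Fin r × Fin r,
            ((if w ∈ S ∧ g w = p then 1 else 0) * (if w' ∈ S ∧ g w' = p then 1 else 0)) := by
          rw [Finset.sum_comm]
          apply Finset.sum_congr rfl
          intro w _
          rw [Finset.sum_comm]
      _ ≤ ∑ w, ∑ w', ai c u w w' * ai c v w w' := by
          apply Finset.sum_le_sum
          intro w _
          apply Finset.sum_le_sum
          intro w' _
          by_cases h : w ∈ S ∧ w' ∈ S ∧ g w = g w'
          · obtain ⟨hw, hw', hg⟩ := h
            have e1 : ∑ p : Fin r × Fin r,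
                ((if w ∈ S ∧ g w = p then 1 else 0) * (if w' ∈ S ∧ g w' = p then 1 else 0)) = 1 := by
              rw [Finset.sum_eq_single (g w)]
              · simp [hw, hw', hg]
              · intro p _ hp
                rw [if_neg (fun h => hp h.2.symm), zero_mul]
              · intro h; exact absurd (Finset.mem_univ _) h
            rw [e1]
            simp only [S, Finset.mem_filter, Finset.mem_univ, true_and] at hw hw'
            simp only [g, Prod.mk.injEq] at hg
            unfold ai
            rw [if_pos ⟨hw.1, hw'.1, hg.1⟩, if_pos ⟨hw.2, hw'.2, hg.2⟩]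
          · have e1 : ∑ p : Fin r × Fin r,
                ((if w ∈ S ∧ g w = p then 1 else 0) * (if w' ∈ S ∧ g w' = p then 1 else 0)) = 0 := by
              apply Finset.sum_eq_zero
              intro p _
              by_cases h1 : w ∈ S ∧ g w = p
              · by_cases h2 : w' ∈ S ∧ g w' = p
                · exact absurd ⟨h1.1, h2.1, h1.2.trans h2.2.symm⟩ h
                · rw [if_neg h2, mul_zero]
              · rw [if_neg h1, zero_mul]
            rw [e1]
            exact Nat.zero_le _
  rw [hS, hT] at h2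
  exact h2.trans (Nat.mul_le_mul_left _ h3)

/-- second moment inequality -/
theorem second_moment (c : V → V → Fin r) (hs : ∀ u v, c u v = c v u)
    (ht : ∀ u v w, u ≠ v → v ≠ w → u ≠ w → ¬ (c u v = c v w ∧ c v w = c u w)) :
    Fintype.card V * (Fintype.card V - 1) * (Fintype.card V - 2) ^ 2 ≤
      (r ^ 2 - 1) * ((∑ u, ∑ v ∈ univ.erase u, mono c u v ^ 2)
        + Fintype.card V * (Fintype.card V - 1) ^ 2) := by
  classical
  have h1 : Fintype.card V * (Fintype.card V - 1) * (Fintype.card V - 2) ^ 2
      = ∑ u : V, ∑ v ∈ univ.erase u, (Fintype.card V - 2) ^ 2 := by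
    simp only [Finset.sum_const, smul_eq_mul, Finset.card_erase_of_mem (Finset.mem_univ _),
      Finset.card_univ]
    ring
  have h2 : ∑ u : V, ∑ v ∈ univ.erase u, (Fintype.card V - 2) ^ 2 ≤
      ∑ u : V, ∑ v ∈ univ.erase u, (r ^ 2 - 1) * ∑ w, ∑ w', ai c u w w' * ai c v w w' := by
    apply Finset.sum_le_sum
    intro u _
    apply Finset.sum_le_sum
    intro v hv
    exact local_ineq c hs ht u v (Finset.ne_of_mem_erase hv).symm
  have h3 : ∑ u : V, ∑ v ∈ univ.erase u, (r ^ 2 - 1) * ∑ w, ∑ w', ai c u w w' * ai c v w w'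
      ≤ (r ^ 2 - 1) * ∑ u : V, ∑ v, ∑ w, ∑ w', ai c u w w' * ai c v w w' := by
    rw [Finset.mul_sum]
    apply Finset.sum_le_sum
    intro u _
    rw [← Finset.mul_sum]
    apply Nat.mul_le_mul_left
    exact Finset.sum_le_sum_of_subset (Finset.erase_subset _ _)
  have h4 : ∑ u : V, ∑ v, ∑ w, ∑ w', ai c u w w' * ai c v w w'
      = ∑ w, ∑ w', (∑ u, ai c u w w') ^ 2 := by
    calc ∑ u : V, ∑ v, ∑ w, ∑ w', ai c u w w' * ai c v w w'
        = ∑ u : V, ∑ w, ∑ v, ∑ w', ai c u w w' * ai c v w w' := by
          apply Finset.sum_congr rfl; intro u _; rw [Finset.sum_comm]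
      _ = ∑ w, ∑ u : V, ∑ v, ∑ w', ai c u w w' * ai c v w w' := by rw [Finset.sum_comm]
      _ = ∑ w, ∑ u : V, ∑ w', ∑ v, ai c u w w' * ai c v w w' := by
          apply Finset.sum_congr rfl; intro w _
          apply Finset.sum_congr rfl; intro u _; rw [Finset.sum_comm]
      _ = ∑ w, ∑ w', ∑ u : V, ∑ v, ai c u w w' * ai c v w w' := by
          apply Finset.sum_congr rfl; intro w _; rw [Finset.sum_comm]
      _ = ∑ w, ∑ w', (∑ u, ai c u w w') ^ 2 := by
          apply Finset.sum_congr rfl; intro w _
          apply Finset.sum_congr rfl; intro w' _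
          rw [sq, Finset.sum_mul_sum]
  have h5 : ∑ w : V, ∑ w', (∑ u, ai c u w w') ^ 2
      = (∑ u, ∑ v ∈ univ.erase u, mono c u v ^ 2)
        + Fintype.card V * (Fintype.card V - 1) ^ 2 := by
    have e1 : ∀ w : V, ∑ w', (∑ u, ai c u w w') ^ 2
        = (∑ v ∈ univ.erase w, mono c w v ^ 2) + (Fintype.card V - 1) ^ 2 := by
      intro w
      rw [← Finset.sum_erase_add _ _ (Finset.mem_univ w), sum_ai_eq]
      congr 1
      apply Finset.sum_congr rfl
      intro w' _
      rw [sum_ai_ne c hs]
    rw [Finset.sum_congr rfl (fun w _ => e1 w), Finset.sum_add_distrib]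
    simp
  rw [h1]
  refine h2.trans (h3.trans ?_)
  rw [h4, h5]

end Pool.Agent.H432R2.Cherry
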