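import Mathlib
import Pool.Agent.H432R2.Cherry.Basic

set_option autoImplicit false

namespace Pool.Agent.H432R2.Cherry

open Finset

/-- functions with prescribed values on `T` -/
theorem card_fix {l r : ℕ} (T : Finset (Fin l)) (y : Fin l → Fin r) :
    (univ.filter (fun x : Fin l → Fin r => ∀ t ∈ T, x t = y t)).card = r ^ (l - T.card) := by
  have h : univ.filter (fun x : Fin l → Fin r => ∀ t ∈ T, x t = y t)
      = Fintype.piFinset (fun t => if t ∈ T then {y t} else univ) := by
    ext x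
    simp only [Finset.mem_filter, Finset.mem_univ, true_and, Fintype.mem_piFinset]
    constructor
    · intro h t
      by_cases ht : t ∈ T
      · simp [ht, h t ht]
      · simp [ht]
    · intro h t ht
      have := h t
      simpa [ht] using this
  rw [h, Fintype.card_piFinset]
  have h2 : ∀ t : Fin l, (if t ∈ T then ({y t} : Finset (Fin r)) else univ).card
      = if t ∈ T then 1 else r := by
    intro t
    split_ifs <;> simp
  rw [Finset.prod_congr rfl (fun t _ => h2 t), Finset.prod_ite]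
  simp only [Finset.prod_const_one, one_mul, Finset.prod_const]
  congr 1
  have h3 : univ.filter (fun t : Fin l => ¬ t ∈ T) = Tᶜ := by ext t; simp
  rw [h3, Finset.card_compl, Fintype.card_fin]

/-- pairs `j < k` -/
def prs (l : ℕ) : Finset (Fin l × Fin l) := univ.filter (fun p => p.1 < p.2)

/-- the bad pairs of a pattern -/
def bad {l r : ℕ} (a : Fin l → Fin l → Fin r) (x : Fin l → Fin r) (p : Fin l × Fin l) : ℕ :=
  if x p.1 = a p.1 p.2 ∧ x p.2 = a p.1 p.2 then 1 else 0

theorem sum_bad {l r : ℕ} (a : Fin l → Fin l → Fin r) (p : Fin l × Fin l) (hp : p ∈ prs l) :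
    ∑ x : Fin l → Fin r, bad a x p = r ^ (l - 2) := by
  have hne : p.1 ≠ p.2 := by
    simp only [prs, Finset.mem_filter, Finset.mem_univ, true_and] at hp
    exact ne_of_lt hp
  have h := card_fix ({p.1, p.2} : Finset (Fin l)) (fun _ => a p.1 p.2)
  rw [Finset.card_pair hne] at h
  rw [← h, Finset.card_filter]
  apply Finset.sum_congr rfl
  intro x _
  unfold bad
  congr 1
  simp

theorem sum_bad_bad {l r : ℕ} (a : Fin l → Fin l → Fin r) (p q : Fin l × Fin l) :
    ∑ x : Fin l → Fin r, bad a x p * bad a x q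
      ≤ r ^ (l - ({p.1, p.2, q.1, q.2} : Finset (Fin l)).card) := by
  have h1 : ∑ x : Fin l → Fin r, bad a x p * bad a x q
      = (univ.filter (fun x : Fin l → Fin r => (x p.1 = a p.1 p.2 ∧ x p.2 = a p.1 p.2) ∧
        (x q.1 = a q.1 q.2 ∧ x q.2 = a q.1 q.2))).card := by
    rw [Finset.card_filter]
    apply Finset.sum_congr rfl
    intro x _
    unfold bad
    by_cases h : (x p.1 = a p.1 p.2 ∧ x p.2 = a p.1 p.2)
    · by_cases h' : (x q.1 = a q.1 q.2 ∧ x q.2 = a q.1 q.2)
      · simp [h, h']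
      · rw [if_neg h', mul_zero, if_neg (fun hh => h' hh.2)]
    · rw [if_neg h, zero_mul, if_neg (fun hh => h hh.1)]
  rw [h1]
  by_cases hem : (univ.filter (fun x : Fin l → Fin r => (x p.1 = a p.1 p.2 ∧ x p.2 = a p.1 p.2) ∧
        (x q.1 = a q.1 q.2 ∧ x q.2 = a q.1 q.2))).Nonempty
  · obtain ⟨y, hy⟩ := hem
    rw [← card_fix ({p.1, p.2, q.1, q.2} : Finset (Fin l)) y]
    apply Finset.card_le_card
    intro x hx
    simp only [Finset.mem_filter, Finset.mem_univ, true_and] at hx hy ⊢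
    intro t ht
    simp only [Finset.mem_insert, Finset.mem_singleton] at ht
    rcases ht with rfl | rfl | rfl | rfl
    · rw [hx.1.1, hy.1.1]
    · rw [hx.1.2, hy.1.2]
    · rw [hx.2.1, hy.2.1]
    · rw [hx.2.2, hy.2.2]
  · rw [Finset.not_nonempty_iff_eq_empty] at hem
    rw [hem]
    simp

theorem card_prs (l : ℕ) : 2 * (prs l).card = l * (l - 1) := by
  have h1 : (prs l).card = ∑ i : Fin l, (l - 1 - (i : ℕ)) := by
    unfold prs
    rw [Finset.card_filter, Fintype.sum_prod_type]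
    apply Finset.sum_congr rfl
    intro i _
    rw [← Finset.card_filter]
    have : univ.filter (fun j : Fin l => i < j) = Finset.Ioi i := by
      ext j; simp
    rw [this, Fin.card_Ioi]
  rw [h1, Fin.sum_univ_eq_sum_range (fun i => l - 1 - i) l, Finset.sum_range_reflect (fun i => i) l,
    mul_comm, Finset.sum_range_id_mul_two]

theorem sum_eq_one (l : ℕ) (c : Fin l) :
    (∑ q : Fin l × Fin l, (if q.1 = c then (1 : ℝ) else 0)) = l ∧
    (∑ q : Fin l × Fin l, (if q.2 = c then (1 : ℝ) else 0)) = l := by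
  constructor
  · rw [Fintype.sum_prod_type_right]
    simp
  · rw [Fintype.sum_prod_type]
    simp

theorem term_bound {l r : ℕ} (hr : 0 < r) (p q : Fin l × Fin l) (hp : p ∈ prs l) (hq : q ∈ prs l) :
    ((r ^ (l - ({p.1, p.2, q.1, q.2} : Finset (Fin l)).card) : ℕ) : ℝ) ≤
      (r : ℝ) ^ l * ((if q = p then 1 / (r : ℝ) ^ 2 else 0)
        + ((if q.1 = p.1 then (1 : ℝ) else 0) + (if q.1 = p.2 then (1 : ℝ) else 0)
          + (if q.2 = p.1 then (1 : ℝ) else 0) + (if q.2 = p.2 then (1 : ℝ) else 0)) / (r : ℝ) ^ 3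
        + 1 / (r : ℝ) ^ 4) := by
  simp only [prs, Finset.mem_filter, Finset.mem_univ, true_and] at hp hq
  have hr' : (0 : ℝ) < r := by exact_mod_cast hr
  have hr1 : (1 : ℝ) ≤ r := by exact_mod_cast hr
  set T : Finset (Fin l) := {p.1, p.2, q.1, q.2} with hT
  have hTl : T.card ≤ l := by
    have := Finset.card_le_univ T
    simpa using this
  have hgen : ∀ k : ℕ, k ≤ T.card → ((r ^ (l - T.card) : ℕ) : ℝ) ≤ (r : ℝ) ^ l * (1 / (r : ℝ) ^ k) := by
    intro k hk
    push_cast
    rw [mul_one_div, le_div_iff₀ (by positivity), ← pow_add]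
    exact pow_le_pow_right₀ hr1 (by omega)
  have i1 : (0 : ℝ) ≤ (if q.1 = p.1 then (1 : ℝ) else 0) := by split_ifs <;> norm_num
  have i2 : (0 : ℝ) ≤ (if q.1 = p.2 then (1 : ℝ) else 0) := by split_ifs <;> norm_num
  have i3 : (0 : ℝ) ≤ (if q.2 = p.1 then (1 : ℝ) else 0) := by split_ifs <;> norm_num
  have i4 : (0 : ℝ) ≤ (if q.2 = p.2 then (1 : ℝ) else 0) := by split_ifs <;> norm_num
  have j4 : (0 : ℝ) ≤ 1 / (r : ℝ) ^ 4 := by positivity
  have hR : (0 : ℝ) ≤ (r : ℝ) ^ l := by positivity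
  by_cases hqp : q = p
  · rw [if_pos hqp]
    have hk : 2 ≤ T.card := by
      have : ({p.1, p.2} : Finset (Fin l)) ⊆ T := by
        intro t ht
        simp only [hT, Finset.mem_insert, Finset.mem_singleton] at ht ⊢
        tauto
      have h2 := Finset.card_le_card this
      rwa [Finset.card_pair (ne_of_lt hp)] at h2
    refine (hgen 2 hk).trans (mul_le_mul_of_nonneg_left ?_ hR)
    have : (0 : ℝ) ≤ ((if q.1 = p.1 then (1 : ℝ) else 0) + (if q.1 = p.2 then (1 : ℝ) else 0)
          + (if q.2 = p.1 then (1 : ℝ) else 0) + (if q.2 = p.2 then (1 : ℝ) else 0)) / (r : ℝ) ^ 3 := by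
      apply div_nonneg
      · linarith
      · positivity
    linarith
  · rw [if_neg hqp]
    by_cases hsh : q.1 = p.1 ∨ q.1 = p.2 ∨ q.2 = p.1 ∨ q.2 = p.2
    · have hk : 3 ≤ T.card := by
        have hz : ∃ z, (z = q.1 ∨ z = q.2) ∧ z ≠ p.1 ∧ z ≠ p.2 := by
          by_contra hcon
          have h1 : q.1 = p.1 ∨ q.1 = p.2 := by
            by_contra h; exact hcon ⟨q.1, Or.inl rfl, fun hh => h (Or.inl hh), fun hh => h (Or.inr hh)⟩
          have h2 : q.2 = p.1 ∨ q.2 = p.2 := by
            by_contra h; exact hcon ⟨q.2, Or.inr rfl, fun hh => h (Or.inl hh), fun hh => h (Or.inr hh)⟩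
          apply hqp
          rcases h1 with h1 | h1 <;> rcases h2 with h2 | h2
          · rw [h1, h2] at hq; exact absurd hq (lt_irrefl _)
          · exact Prod.ext h1 h2
          · rw [h1, h2] at hq; exact absurd (hq.trans hp) (lt_irrefl _)
          · rw [h1, h2] at hq; exact absurd hq (lt_irrefl _)
        obtain ⟨z, hz1, hz2, hz3⟩ := hz
        have : ({z, p.1, p.2} : Finset (Fin l)) ⊆ T := by
          intro t ht
          simp only [hT, Finset.mem_insert, Finset.mem_singleton] at ht ⊢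
          rcases ht with rfl | rfl | rfl
          · tauto
          · tauto
          · tauto
        have h2 := Finset.card_le_card this
        have h3 : ({z, p.1, p.2} : Finset (Fin l)).card = 3 := by
          rw [Finset.card_insert_of_notMem, Finset.card_pair (ne_of_lt hp)]
          simp [hz2, hz3]
        omega
      refine (hgen 3 hk).trans (mul_le_mul_of_nonneg_left ?_ hR)
      have h5 : (1 : ℝ) ≤ (if q.1 = p.1 then (1 : ℝ) else 0) + (if q.1 = p.2 then (1 : ℝ) else 0)
          + (if q.2 = p.1 then (1 : ℝ) else 0) + (if q.2 = p.2 then (1 : ℝ) else 0) := by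
        rcases hsh with h | h | h | h
        · rw [if_pos h]; linarith
        · rw [if_pos h]; linarith
        · rw [if_pos h]; linarith
        · rw [if_pos h]; linarith
      have h6 : 1 / (r : ℝ) ^ 3 ≤ ((if q.1 = p.1 then (1 : ℝ) else 0) + (if q.1 = p.2 then (1 : ℝ) else 0)
          + (if q.2 = p.1 then (1 : ℝ) else 0) + (if q.2 = p.2 then (1 : ℝ) else 0)) / (r : ℝ) ^ 3 :=
        div_le_div_of_nonneg_right h5 (by positivity)
      linarith
    · have hk : 4 ≤ T.card := by
        have hsh1 : q.1 ≠ p.1 := fun h => hsh (Or.inl h)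
        have hsh2 : q.1 ≠ p.2 := fun h => hsh (Or.inr (Or.inl h))
        have hsh3 : q.2 ≠ p.1 := fun h => hsh (Or.inr (Or.inr (Or.inl h)))
        have hsh4 : q.2 ≠ p.2 := fun h => hsh (Or.inr (Or.inr (Or.inr h)))
        have : T.card = 4 := by
          rw [hT, Finset.card_insert_of_notMem, Finset.card_insert_of_notMem,
            Finset.card_pair (ne_of_lt hq)]
          · simp [hsh2.symm, hsh4.symm]
          · simp [ne_of_lt hp, hsh1.symm, hsh3.symm]
        omega
      refine (hgen 4 hk).trans (mul_le_mul_of_nonneg_left ?_ hR)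
      have : (0 : ℝ) ≤ ((if q.1 = p.1 then (1 : ℝ) else 0) + (if q.1 = p.2 then (1 : ℝ) else 0)
          + (if q.2 = p.1 then (1 : ℝ) else 0) + (if q.2 = p.2 then (1 : ℝ) else 0)) / (r : ℝ) ^ 3 := by
        apply div_nonneg
        · linarith
        · positivity
      linarith

theorem allowed_card {l r : ℕ} (hl : 5 * l ≤ r) (hl2 : 2 ≤ l) (a : Fin l → Fin l → Fin r) :
    ((univ.filter (fun x : Fin l → Fin r =>
      ∀ p ∈ prs l, ¬ (x p.1 = a p.1 p.2 ∧ x p.2 = a p.1 p.2))).card : ℝ)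
      ≤ (r : ℝ) ^ l * (1 - ((prs l).card : ℝ) / (2 * (r : ℝ) ^ 2)) := by
  have hr : 0 < r := by omega
  have hr' : (0 : ℝ) < r := by exact_mod_cast hr
  have hl' : (5 : ℝ) * l ≤ r := by exact_mod_cast hl
  set P : ℝ := ((prs l).card : ℝ) with hP
  have hP0 : 0 ≤ P := Nat.cast_nonneg _
  have hPl : 2 * P ≤ (l : ℝ) * l := by
    have h := card_prs l
    have h2 : 2 * (prs l).card ≤ l * l := by
      rw [h]; exact Nat.mul_le_mul_left _ (Nat.sub_le _ _)
    rw [hP]; exact_mod_cast h2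
  let X : (Fin l → Fin r) → ℝ := fun x => ∑ p ∈ prs l, (bad a x p : ℝ)
  have hpt : ∀ x : Fin l → Fin r,
      (if (∀ p ∈ prs l, ¬ (x p.1 = a p.1 p.2 ∧ x p.2 = a p.1 p.2)) then (1 : ℝ) else 0)
        ≤ 1 - (3 / 2) * X x + (1 / 2) * (X x) ^ 2 := by
    intro x
    by_cases h : ∀ p ∈ prs l, ¬ (x p.1 = a p.1 p.2 ∧ x p.2 = a p.1 p.2)
    · rw [if_pos h]
      have hX : X x = 0 := by
        apply Finset.sum_eq_zero
        intro p hp
        unfold bad
        rw [if_neg (h p hp)]
        simp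
      rw [hX]; norm_num
    · rw [if_neg h]
      have hX : X x = ((∑ p ∈ prs l, bad a x p : ℕ) : ℝ) := by simp [X]
      rw [hX]
      have key : ∀ n : ℕ, (0 : ℝ) ≤ 1 - (3 / 2) * (n : ℝ) + (1 / 2) * (n : ℝ) ^ 2 := by
        intro n
        rcases n with _ | _ | n
        · norm_num
        · norm_num
        · push_cast
          nlinarith [Nat.cast_nonneg (α := ℝ) n]
      exact key _
  have hsum1 : ∑ x, X x = (r : ℝ) ^ l * (P / (r : ℝ) ^ 2) := by
    have : ∑ x, X x = ∑ p ∈ prs l, ((∑ x : Fin l → Fin r, bad a x p : ℕ) : ℝ) := by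
      simp only [X]
      rw [Finset.sum_comm]
      push_cast
      rfl
    rw [this, Finset.sum_congr rfl (fun p hp => by rw [sum_bad a p hp])]
    rw [Finset.sum_const, nsmul_eq_mul]
    have h3 : (r : ℝ) ^ l = (r : ℝ) ^ (l - 2) * (r : ℝ) ^ 2 := by
      rw [← pow_add]; congr 1; omega
    rw [h3]
    push_cast
    field_simp
    rfl
  have hsum2 : ∑ x, (X x) ^ 2 ≤ (r : ℝ) ^ l * ((P / (r : ℝ) ^ 2) * (1 + 4 * l / r + P / (r : ℝ) ^ 2)) := by
    have e1 : ∑ x, (X x) ^ 2 = ∑ p ∈ prs l, ∑ q ∈ prs l,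
        ((∑ x : Fin l → Fin r, bad a x p * bad a x q : ℕ) : ℝ) := by
      simp only [X]
      calc ∑ x : Fin l → Fin r, (∑ p ∈ prs l, (bad a x p : ℝ)) ^ 2
          = ∑ x : Fin l → Fin r, ∑ p ∈ prs l, ∑ q ∈ prs l, (bad a x p : ℝ) * (bad a x q : ℝ) := by
            apply Finset.sum_congr rfl; intro x _
            rw [sq, Finset.sum_mul_sum]
        _ = ∑ p ∈ prs l, ∑ x : Fin l → Fin r, ∑ q ∈ prs l, (bad a x p : ℝ) * (bad a x q : ℝ) := by
            rw [Finset.sum_comm]
        _ = ∑ p ∈ prs l, ∑ q ∈ prs l, ∑ x : Fin l → Fin r, (bad a x p : ℝ) * (bad a x q : ℝ) := by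
            apply Finset.sum_congr rfl; intro p _
            rw [Finset.sum_comm]
        _ = _ := by push_cast; rfl
    rw [e1]
    have e2 : ∀ p ∈ prs l, ∑ q ∈ prs l,
        ((∑ x : Fin l → Fin r, bad a x p * bad a x q : ℕ) : ℝ)
          ≤ (r : ℝ) ^ l * (1 / (r : ℝ) ^ 2 + 4 * l / (r : ℝ) ^ 3 + P / (r : ℝ) ^ 4) := by
      intro p hp
      calc ∑ q ∈ prs l, ((∑ x : Fin l → Fin r, bad a x p * bad a x q : ℕ) : ℝ)
          ≤ ∑ q ∈ prs l, ((r : ℝ) ^ l * ((if q = p then 1 / (r : ℝ) ^ 2 else 0)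
        + ((if q.1 = p.1 then (1 : ℝ) else 0) + (if q.1 = p.2 then (1 : ℝ) else 0)
          + (if q.2 = p.1 then (1 : ℝ) else 0) + (if q.2 = p.2 then (1 : ℝ) else 0)) / (r : ℝ) ^ 3
        + 1 / (r : ℝ) ^ 4)) := by
            apply Finset.sum_le_sum
            intro q hq
            refine le_trans ?_ (term_bound hr p q hp hq)
            exact_mod_cast sum_bad_bad a p q
        _ = (r : ℝ) ^ l * (∑ q ∈ prs l, (if q = p then 1 / (r : ℝ) ^ 2 else 0)
            + (∑ q ∈ prs l, ((if q.1 = p.1 then (1 : ℝ) else 0) + (if q.1 = p.2 then (1 : ℝ) else 0)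
          + (if q.2 = p.1 then (1 : ℝ) else 0) + (if q.2 = p.2 then (1 : ℝ) else 0))) / (r : ℝ) ^ 3
            + P * (1 / (r : ℝ) ^ 4)) := by
            rw [← Finset.mul_sum, Finset.sum_add_distrib, Finset.sum_add_distrib, Finset.sum_div,
              Finset.sum_const, nsmul_eq_mul]
        _ ≤ (r : ℝ) ^ l * (1 / (r : ℝ) ^ 2 + 4 * l / (r : ℝ) ^ 3 + P / (r : ℝ) ^ 4) := by
            apply mul_le_mul_of_nonneg_left _ (by positivity)
            have f1 : ∑ q ∈ prs l, (if q = p then 1 / (r : ℝ) ^ 2 else 0) = 1 / (r : ℝ) ^ 2 := by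
              rw [Finset.sum_ite_eq', if_pos hp]
            have f2 : ∑ q ∈ prs l, ((if q.1 = p.1 then (1 : ℝ) else 0) + (if q.1 = p.2 then (1 : ℝ) else 0)
                + (if q.2 = p.1 then (1 : ℝ) else 0) + (if q.2 = p.2 then (1 : ℝ) else 0)) ≤ 4 * l := by
              calc _ ≤ ∑ q : Fin l × Fin l, ((if q.1 = p.1 then (1 : ℝ) else 0) + (if q.1 = p.2 then (1 : ℝ) else 0)
                + (if q.2 = p.1 then (1 : ℝ) else 0) + (if q.2 = p.2 then (1 : ℝ) else 0)) := by
                    apply Finset.sum_le_sum_of_subset_of_nonneg (Finset.subset_univ _)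
                    intro q _ _
                    have i1 : (0 : ℝ) ≤ (if q.1 = p.1 then (1 : ℝ) else 0) := by split_ifs <;> norm_num
                    have i2 : (0 : ℝ) ≤ (if q.1 = p.2 then (1 : ℝ) else 0) := by split_ifs <;> norm_num
                    have i3 : (0 : ℝ) ≤ (if q.2 = p.1 then (1 : ℝ) else 0) := by split_ifs <;> norm_num
                    have i4 : (0 : ℝ) ≤ (if q.2 = p.2 then (1 : ℝ) else 0) := by split_ifs <;> norm_num
                    linarith
                _ = 4 * l := by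
                    rw [Finset.sum_add_distrib, Finset.sum_add_distrib, Finset.sum_add_distrib,
                      (sum_eq_one l p.1).1, (sum_eq_one l p.2).1, (sum_eq_one l p.1).2,
                      (sum_eq_one l p.2).2]
                    ring
            have f3 := div_le_div_of_nonneg_right f2 (show (0 : ℝ) ≤ (r : ℝ) ^ 3 by positivity)
            rw [f1]
            have f4 : P * (1 / (r : ℝ) ^ 4) = P / (r : ℝ) ^ 4 := by ring
            rw [f4]
            linarith
    calc _ ≤ ∑ p ∈ prs l, (r : ℝ) ^ l * (1 / (r : ℝ) ^ 2 + 4 * l / (r : ℝ) ^ 3 + P / (r : ℝ) ^ 4) :=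
          Finset.sum_le_sum e2
      _ = (r : ℝ) ^ l * ((P / (r : ℝ) ^ 2) * (1 + 4 * l / r + P / (r : ℝ) ^ 2)) := by
          rw [Finset.sum_const, nsmul_eq_mul]
          field_simp
          rfl
  have hcard : ((univ.filter (fun x : Fin l → Fin r =>
      ∀ p ∈ prs l, ¬ (x p.1 = a p.1 p.2 ∧ x p.2 = a p.1 p.2))).card : ℝ)
      ≤ (r : ℝ) ^ l - (3 / 2) * ∑ x, X x + (1 / 2) * ∑ x, (X x) ^ 2 := by
    rw [Finset.card_filter]
    push_cast
    calc _ ≤ ∑ x : Fin l → Fin r, (1 - (3 / 2) * X x + (1 / 2) * (X x) ^ 2) :=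
          Finset.sum_le_sum (fun x _ => hpt x)
      _ = _ := by
          rw [Finset.sum_add_distrib, Finset.sum_sub_distrib, ← Finset.mul_sum, ← Finset.mul_sum,
            Finset.sum_const, Finset.card_univ, Fintype.card_fun, Fintype.card_fin, Fintype.card_fin]
          simp
  rw [hsum1] at hcard
  have hR : (0 : ℝ) < (r : ℝ) ^ l := by positivity
  have g1 : 4 * (l : ℝ) / r ≤ 4 / 5 := by
    rw [div_le_iff₀ hr']; linarith
  have g2 : P / (r : ℝ) ^ 2 ≤ 1 / 50 := by
    rw [div_le_iff₀ (by positivity)]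
    nlinarith [Nat.cast_nonneg (α := ℝ) l]
  have g3 : 0 ≤ P / (r : ℝ) ^ 2 := by positivity
  have g4 : (r : ℝ) ^ l * ((P / (r : ℝ) ^ 2) * (1 + 4 * l / r + P / (r : ℝ) ^ 2))
      ≤ (r : ℝ) ^ l * ((P / (r : ℝ) ^ 2) * 2) := by
    apply mul_le_mul_of_nonneg_left _ hR.le
    apply mul_le_mul_of_nonneg_left _ g3
    linarith
  have g5 : P / (2 * (r : ℝ) ^ 2) = (P / (r : ℝ) ^ 2) / 2 := by
    field_simp
  rw [g5]
  nlinarith [hcard, hsum2, g4]

end Pool.Agent.H432R2.Cherry
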