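import Mathlib
import Pool.Agent.H432R2.Cherry.Moment

set_option autoImplicit false

namespace Pool.Agent.H432R2.Cherry

open Finset

variable {V : Type} [Fintype V] [DecidableEq V] {r : ℕ}

theorem local_l (c : V → V → Fin r)
    (ht : ∀ u v w, u ≠ v → v ≠ w → u ≠ w → ¬ (c u v = c v w ∧ c v w = c u w))
    {l : ℕ} (hl : 5 * l ≤ r) (hl2 : 2 ≤ l) (u : Fin l → V) (hu : Function.Injective u) :
    ((Fintype.card V : ℝ) - l) ^ 2 ≤ ((r : ℝ) ^ l * (1 - ((prs l).card : ℝ) / (2 * (r : ℝ) ^ 2)))
      * ((∑ w, ∑ w', ∏ j, ai c (u j) w w' : ℕ) : ℝ) := by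
  classical
  let S : Finset V := univ.filter (fun w => ∀ j, w ≠ u j)
  have hS : S.card = Fintype.card V - l := by
    have : S = (univ.image u)ᶜ := by
      ext w
      simp only [S, Finset.mem_filter, Finset.mem_univ, true_and, Finset.mem_compl,
        Finset.mem_image, not_exists]
      exact ⟨fun h j hj => h j hj.symm, fun h j hj => h j hj.symm⟩
    rw [this, Finset.card_compl, Finset.card_image_of_injective _ hu, Finset.card_univ,
      Fintype.card_fin]
  have hle : l ≤ Fintype.card V := by
    have := Fintype.card_le_of_injective u hu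
    simpa using this
  let g : V → (Fin l → Fin r) := fun w j => c (u j) w
  let T : Finset (Fin l → Fin r) := univ.filter (fun x : Fin l → Fin r =>
      ∀ p ∈ prs l, ¬ (x p.1 = c (u p.1) (u p.2) ∧ x p.2 = c (u p.1) (u p.2)))
  have hT : (T.card : ℝ) ≤ (r : ℝ) ^ l * (1 - ((prs l).card : ℝ) / (2 * (r : ℝ) ^ 2)) :=
    allowed_card hl hl2 (fun j k => c (u j) (u k))
  have hmap : ∀ w ∈ S, g w ∈ T := by
    intro w hw
    simp only [S, Finset.mem_filter, Finset.mem_univ, true_and] at hw
    simp only [T, g, Finset.mem_filter, Finset.mem_univ, true_and]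
    intro p hp hcc
    have hne : p.1 ≠ p.2 := by
      simp only [prs, Finset.mem_filter, Finset.mem_univ, true_and] at hp
      exact ne_of_lt hp
    apply ht (u p.1) (u p.2) w (fun h => hne (hu h)) (hw p.2).symm (hw p.1).symm
    exact ⟨hcc.2.symm, hcc.2.trans hcc.1.symm⟩
  have h1 : S.card = ∑ p ∈ T, (S.filter (fun w => g w = p)).card :=
    Finset.card_eq_sum_card_fiberwise hmap
  have h2 : S.card ^ 2 ≤ T.card * ∑ p ∈ T, (S.filter (fun w => g w = p)).card ^ 2 := by
    rw [h1]
    exact sq_sum_le_card_mul_sum_sq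
  have h3 : ∑ p ∈ T, (S.filter (fun w => g w = p)).card ^ 2
      ≤ ∑ w, ∑ w', ∏ j, ai c (u j) w w' := by
    calc ∑ p ∈ T, (S.filter (fun w => g w = p)).card ^ 2
        ≤ ∑ p, (S.filter (fun w => g w = p)).card ^ 2 :=
          Finset.sum_le_sum_of_subset (Finset.subset_univ _)
      _ = ∑ p : Fin l → Fin r, ∑ w, ∑ w',
            ((if w ∈ S ∧ g w = p then 1 else 0) * (if w' ∈ S ∧ g w' = p then 1 else 0)) := by
          apply Finset.sum_congr rfl
          intro p _
          rw [sq, ← Finset.sum_mul_sum]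
          congr 1 <;>
          · rw [← Finset.card_filter]
            congr 1
            ext w
            simp
      _ = ∑ w, ∑ w', ∑ p : Fin l → Fin r,
            ((if w ∈ S ∧ g w = p then 1 else 0) * (if w' ∈ S ∧ g w' = p then 1 else 0)) := by
          rw [Finset.sum_comm]
          apply Finset.sum_congr rfl
          intro w _
          rw [Finset.sum_comm]
      _ ≤ ∑ w, ∑ w', ∏ j, ai c (u j) w w' := by
          apply Finset.sum_le_sum
          intro w _
          apply Finset.sum_le_sum
          intro w' _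
          by_cases h : w ∈ S ∧ w' ∈ S ∧ g w = g w'
          · obtain ⟨hw, hw', hg⟩ := h
            have e1 : ∑ p : Fin l → Fin r,
                ((if w ∈ S ∧ g w = p then 1 else 0) * (if w' ∈ S ∧ g w' = p then 1 else 0)) = 1 := by
              rw [Finset.sum_eq_single (g w)]
              · simp [hw, hw', hg]
              · intro p _ hp
                rw [if_neg (fun h => hp h.2.symm), zero_mul]
              · intro h; exact absurd (Finset.mem_univ _) h
            rw [e1]
            simp only [S, Finset.mem_filter, Finset.mem_univ, true_and] at hw hw'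
            have e2 : ∏ j, ai c (u j) w w' = 1 := by
              apply Finset.prod_eq_one
              intro j _
              unfold ai
              rw [if_pos ⟨hw j, hw' j, congrFun hg j⟩]
            rw [e2]
          · have e1 : ∑ p : Fin l → Fin r,
                ((if w ∈ S ∧ g w = p then 1 else 0) * (if w' ∈ S ∧ g w' = p then 1 else 0)) = 0 := by
              apply Finset.sum_eq_zero
              intro p _
              by_cases h1 : w ∈ S ∧ g w = p
              · by_cases h2 : w' ∈ S ∧ g w' = p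
                · exact absurd ⟨h1.1, h2.1, h1.2.trans h2.2.symm⟩ h
                · rw [if_neg h2, mul_zero]
              · rw [if_neg h1, zero_mul]
            rw [e1]
            exact Nat.zero_le _
  have h4 : ((S.card ^ 2 : ℕ) : ℝ) ≤ (T.card : ℝ) * ((∑ w, ∑ w', ∏ j, ai c (u j) w w' : ℕ) : ℝ) := by
    have := h2.trans (Nat.mul_le_mul_left _ h3)
    exact_mod_cast this
  have h5 : ((S.card ^ 2 : ℕ) : ℝ) = ((Fintype.card V : ℝ) - l) ^ 2 := by
    rw [hS]; push_cast [Nat.cast_sub hle]; ring
  rw [h5] at h4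
  exact h4.trans (mul_le_mul_of_nonneg_right hT (Nat.cast_nonneg _))

theorem card_inj (l : ℕ) [DecidablePred (fun u : Fin l → V => Function.Injective u)] :
    (univ.filter (fun u : Fin l → V => Function.Injective u)).card
      = (Fintype.card V).descFactorial l := by
  classical
  have h1 := Fintype.card_embedding_eq (α := Fin l) (β := V)
  rw [Fintype.card_fin] at h1
  rw [← h1, ← Fintype.card_subtype]
  exact Fintype.card_congr (Equiv.subtypeInjectiveEquivEmbedding (Fin l) V)

theorem moment (c : V → V → Fin r) (hs : ∀ u v, c u v = c v u)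
    (ht : ∀ u v w, u ≠ v → v ≠ w → u ≠ w → ¬ (c u v = c v w ∧ c v w = c u w))
    {l : ℕ} (hl : 5 * l ≤ r) (hl2 : 2 ≤ l) :
    ((Fintype.card V).descFactorial l : ℝ) * ((Fintype.card V : ℝ) - l) ^ 2 ≤
      ((r : ℝ) ^ l * (1 - ((prs l).card : ℝ) / (2 * (r : ℝ) ^ 2)))
      * (((∑ u, ∑ v ∈ univ.erase u, mono c u v ^ l)
        + Fintype.card V * (Fintype.card V - 1) ^ l : ℕ) : ℝ) := by
  classical
  set A : ℝ := (r : ℝ) ^ l * (1 - ((prs l).card : ℝ) / (2 * (r : ℝ) ^ 2)) with hA
  have hA0 : 0 ≤ A := by
    have h := allowed_card (r := r) hl hl2 (fun _ _ => ⟨0, by omega⟩)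
    exact le_trans (Nat.cast_nonneg _) h
  have h1 : ((Fintype.card V).descFactorial l : ℝ) * ((Fintype.card V : ℝ) - l) ^ 2
      = ∑ u ∈ univ.filter (fun u : Fin l → V => Function.Injective u),
        ((Fintype.card V : ℝ) - l) ^ 2 := by
    rw [Finset.sum_const, card_inj, nsmul_eq_mul]
  have h2 : ∑ u ∈ univ.filter (fun u : Fin l → V => Function.Injective u),
        ((Fintype.card V : ℝ) - l) ^ 2
      ≤ A * ((∑ u : Fin l → V, ∑ w, ∑ w', ∏ j, ai c (u j) w w' : ℕ) : ℝ) := by
    calc _ ≤ ∑ u ∈ univ.filter (fun u : Fin l → V => Function.Injective u),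
          A * ((∑ w, ∑ w', ∏ j, ai c (u j) w w' : ℕ) : ℝ) := by
          apply Finset.sum_le_sum
          intro u hu
          exact local_l c ht hl hl2 u (Finset.mem_filter.mp hu).2
      _ = A * ((∑ u ∈ univ.filter (fun u : Fin l → V => Function.Injective u),
            ∑ w, ∑ w', ∏ j, ai c (u j) w w' : ℕ) : ℝ) := by
          rw [← Finset.mul_sum]; push_cast; rfl
      _ ≤ _ := by
          apply mul_le_mul_of_nonneg_left _ hA0
          exact_mod_cast Finset.sum_le_sum_of_subset (Finset.subset_univ _)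
  have h3 : ∑ u : Fin l → V, ∑ w, ∑ w', ∏ j, ai c (u j) w w'
      = ∑ w, ∑ w', (∑ v, ai c v w w') ^ l := by
    calc ∑ u : Fin l → V, ∑ w, ∑ w', ∏ j, ai c (u j) w w'
        = ∑ w, ∑ u : Fin l → V, ∑ w', ∏ j, ai c (u j) w w' := by rw [Finset.sum_comm]
      _ = ∑ w, ∑ w', ∑ u : Fin l → V, ∏ j, ai c (u j) w w' := by
          apply Finset.sum_congr rfl; intro w _
          rw [Finset.sum_comm]
      _ = _ := by
          apply Finset.sum_congr rfl; intro w _
          apply Finset.sum_congr rfl; intro w' _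
          rw [Fintype.sum_pow]
  have h5 : ∑ w : V, ∑ w', (∑ v, ai c v w w') ^ l
      = (∑ u, ∑ v ∈ univ.erase u, mono c u v ^ l)
        + Fintype.card V * (Fintype.card V - 1) ^ l := by
    have e1 : ∀ w : V, ∑ w', (∑ v, ai c v w w') ^ l
        = (∑ v ∈ univ.erase w, mono c w v ^ l) + (Fintype.card V - 1) ^ l := by
      intro w
      rw [← Finset.sum_erase_add _ _ (Finset.mem_univ w), sum_ai_eq]
      congr 1
      apply Finset.sum_congr rfl
      intro w' _
      rw [sum_ai_ne c hs]
    rw [Finset.sum_congr rfl (fun w _ => e1 w), Finset.sum_add_distrib]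
    simp
  rw [h1]
  rw [h3, h5] at h2
  exact h2

end Pool.Agent.H432R2.Cherry
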